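import Pool.Agent.Dec45.Lower
import Pool.Agent.KF74.Main

/-! # Dec45/Assemble (MP_82a190_co, helper45): frozen statement S09808 from a bound `< 8/9` for the fractional side -/

namespace Pool.Agent.Dec45

open Finset

/-- the negation of the equality of the two thresholds, from fractional decompositions below `8/9` -/
theorem neg_of_frac {mu : ℝ} (hmu : 1 / 9 < mu) (hmu1 : mu ≤ 1)
    (h : ∃ n₀ : ℕ, ∀ n : ℕ, n₀ ≤ n → ∀ G : Finset (Finset (Fin n)),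
      (∀ e ∈ G, e.card = 3) →
      (∀ S : Finset (Fin n), S.card = 3 - 1 → (1 - mu) * (n : ℝ) ≤ ((G.filter (fun e => S ⊆ e)).card : ℝ)) →
      ∃ w : Finset (Fin n) → ℝ,
        (∀ A, 0 ≤ w A) ∧
        (∀ A, w A ≠ 0 → A.card = 4 ∧ ∀ e : Finset (Fin n), e ⊆ A → e.card = 3 → e ∈ G) ∧
        ∀ e ∈ G, ∑ A ∈ (Finset.univ : Finset (Finset (Fin n))).filter (fun A => e ⊆ A), w A = 1) :
    ¬ (∀ r k : ℕ, 2 ≤ k → k < r →
    sInf {δ : ℝ | 0 ≤ δ ∧ δ ≤ 1 ∧ ∃ n₀ : ℕ, ∀ n : ℕ, n₀ ≤ n →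
      ∀ G : Finset (Finset (Fin n)),
        (∀ e ∈ G, e.card = k) →
        (∀ S : Finset (Fin n), S.card = k - 1 →
          δ * (n : ℝ) ≤ ((G.filter (fun e => S ⊆ e)).card : ℝ)) →
        (∀ S : Finset (Fin n), S.card < k →
          (r - S.card).choose (k - S.card) ∣ (G.filter (fun e => S ⊆ e)).card) →
        ∃ D : Finset (Finset (Fin n)),
          (∀ A ∈ D, A.card = r ∧ ∀ e : Finset (Fin n), e ⊆ A → e.card = k → e ∈ G) ∧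
          ∀ e ∈ G, (D.filter (fun A => e ⊆ A)).card = 1}
    =
    sInf {δ : ℝ | 0 ≤ δ ∧ δ ≤ 1 ∧ ∃ n₀ : ℕ, ∀ n : ℕ, n₀ ≤ n →
      ∀ G : Finset (Finset (Fin n)),
        (∀ e ∈ G, e.card = k) →
        (∀ S : Finset (Fin n), S.card = k - 1 →
          δ * (n : ℝ) ≤ ((G.filter (fun e => S ⊆ e)).card : ℝ)) →
        ∃ w : Finset (Fin n) → ℝ,
          (∀ A, 0 ≤ w A) ∧
          (∀ A, w A ≠ 0 → A.card = r ∧ ∀ e : Finset (Fin n), e ⊆ A → e.card = k → e ∈ G) ∧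
          ∀ e ∈ G, ∑ A ∈ (Finset.univ : Finset (Finset (Fin n))).filter (fun A => e ⊆ A), w A = 1}) := by
  intro hall
  have h1 := hall 4 3 (by norm_num) (by norm_num)
  have h2 := lower
  rw [h1] at h2
  have h3 : sInf {δ : ℝ | 0 ≤ δ ∧ δ ≤ 1 ∧ ∃ n₀ : ℕ, ∀ n : ℕ, n₀ ≤ n →
      ∀ G : Finset (Finset (Fin n)),
        (∀ e ∈ G, e.card = 3) →
        (∀ S : Finset (Fin n), S.card = 3 - 1 →
          δ * (n : ℝ) ≤ ((G.filter (fun e => S ⊆ e)).card : ℝ)) →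
        ∃ w : Finset (Fin n) → ℝ,
          (∀ A, 0 ≤ w A) ∧
          (∀ A, w A ≠ 0 → A.card = 4 ∧ ∀ e : Finset (Fin n), e ⊆ A → e.card = 3 → e ∈ G) ∧
          ∀ e ∈ G, ∑ A ∈ (Finset.univ : Finset (Finset (Fin n))).filter (fun A => e ⊆ A), w A = 1} ≤ 1 - mu :=
    csInf_le ⟨0, fun δ hδ => hδ.1⟩ ⟨by linarith, by linarith, h⟩
  linarith [h2.trans h3]

/-- the same from a valid certificate -/
theorem neg_of_cert (K : KF74.Cert) (hK : K.Valid) (hmu : 1 / 9 < K.mu) (hmu1 : K.mu ≤ 1) :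
    ¬ (∀ r k : ℕ, 2 ≤ k → k < r →
    sInf {δ : ℝ | 0 ≤ δ ∧ δ ≤ 1 ∧ ∃ n₀ : ℕ, ∀ n : ℕ, n₀ ≤ n →
      ∀ G : Finset (Finset (Fin n)),
        (∀ e ∈ G, e.card = k) →
        (∀ S : Finset (Fin n), S.card = k - 1 →
          δ * (n : ℝ) ≤ ((G.filter (fun e => S ⊆ e)).card : ℝ)) →
        (∀ S : Finset (Fin n), S.card < k →
          (r - S.card).choose (k - S.card) ∣ (G.filter (fun e => S ⊆ e)).card) →
        ∃ D : Finset (Finset (Fin n)),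
          (∀ A ∈ D, A.card = r ∧ ∀ e : Finset (Fin n), e ⊆ A → e.card = k → e ∈ G) ∧
          ∀ e ∈ G, (D.filter (fun A => e ⊆ A)).card = 1}
    =
    sInf {δ : ℝ | 0 ≤ δ ∧ δ ≤ 1 ∧ ∃ n₀ : ℕ, ∀ n : ℕ, n₀ ≤ n →
      ∀ G : Finset (Finset (Fin n)),
        (∀ e ∈ G, e.card = k) →
        (∀ S : Finset (Fin n), S.card = k - 1 →
          δ * (n : ℝ) ≤ ((G.filter (fun e => S ⊆ e)).card : ℝ)) →
        ∃ w : Finset (Fin n) → ℝ,
          (∀ A, 0 ≤ w A) ∧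
          (∀ A, w A ≠ 0 → A.card = r ∧ ∀ e : Finset (Fin n), e ⊆ A → e.card = k → e ∈ G) ∧
          ∀ e ∈ G, ∑ A ∈ (Finset.univ : Finset (Finset (Fin n))).filter (fun A => e ⊆ A), w A = 1}) :=
  neg_of_frac hmu hmu1 (KF74.frac_of_cert K hK)

end Pool.Agent.Dec45
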