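import Mathlib

/-!
# The nontrivial mod 2 cocycle on the non-collinear triples of AG(2,3)

Types are `Fin 9`; type `t` stands for the point `(t % 3, t / 3)` of `(Z/3)^2`.
-/

namespace Pool.Agent.Dec45

/-- `bad a b c`: the three points sum to zero (collinear, or all equal). -/
def badT (a b c : Fin 9) : Bool :=
  ((a.1 % 3 + b.1 % 3 + c.1 % 3) % 3 == 0) && ((a.1 / 3 + b.1 / 3 + c.1 / 3) % 3 == 0)

/-- codes `4^a+4^b+4^c` of the twelve triples in the support of the cocycle -/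
def supp : List ℕ :=
  [4^1+4^2+4^3, 4^1+4^2+4^4, 4^1+4^2+4^5, 4^1+4^3+4^6, 4^1+4^5+4^7, 4^2+4^4+4^8,
   4^3+4^4+4^6, 4^3+4^4+4^8, 4^3+4^5+4^7, 4^3+4^6+4^7, 4^4+4^7+4^8, 4^5+4^7+4^8]

/-- indicator of the support, as a Boolean -/
def chiB (n : ℕ) : Bool := supp.contains n

def chi (n : ℕ) : ZMod 2 := if chiB n then 1 else 0

theorem cocycle_bool : ∀ a b c d : Fin 9, badT a b c = false → badT a b d = false →
    badT a c d = false → badT b c d = false →
    (xor (xor (chiB (4^a.1+4^b.1+4^c.1)) (chiB (4^a.1+4^b.1+4^d.1)))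
      (xor (chiB (4^a.1+4^c.1+4^d.1)) (chiB (4^b.1+4^c.1+4^d.1)))) = false := by
  decide +kernel

theorem cocycle (a b c d : Fin 9) (h1 : badT a b c = false) (h2 : badT a b d = false)
    (h3 : badT a c d = false) (h4 : badT b c d = false) :
    chi (4^a.1+4^b.1+4^c.1) + chi (4^a.1+4^b.1+4^d.1)
      + chi (4^a.1+4^c.1+4^d.1) + chi (4^b.1+4^c.1+4^d.1) = 0 := by
  have h := cocycle_bool a b c d h1 h2 h3 h4
  unfold chi
  generalize chiB (4^a.1+4^b.1+4^c.1) = p at *
  generalize chiB (4^a.1+4^b.1+4^d.1) = q at *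
  generalize chiB (4^a.1+4^c.1+4^d.1) = r at *
  generalize chiB (4^b.1+4^c.1+4^d.1) = s at *
  revert h
  revert p q r s
  decide

end Pool.Agent.Dec45
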