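import Pool.Agent.Dec45.Cocycle

namespace Pool.Agent.Dec45

open Finset

section general

variable {V : Type*} [Fintype V] [DecidableEq V]

/-- triples containing a given pair are counted by third vertices -/
theorem card_pair_filter (Q : Finset V → Prop) [DecidablePred Q] (u v : V) (huv : u ≠ v) :
    ((((univ : Finset V).powersetCard 3).filter Q).filter (fun e => ({u, v} : Finset V) ⊆ e)).card
      = (univ.filter (fun w => w ≠ u ∧ w ≠ v ∧ Q (insert w {u, v}))).card := by
  classical
  symm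
  refine Finset.card_bij (fun w _ => insert w {u, v}) ?_ ?_ ?_
  · intro w hw
    simp only [mem_filter, mem_univ, true_and] at hw
    simp only [mem_filter, mem_powersetCard, subset_univ, true_and]
    refine ⟨⟨?_, hw.2.2⟩, subset_insert _ _⟩
    rw [card_insert_of_notMem, card_pair huv]
    simp [hw.1, hw.2.1]
  · intro w hw w' hw' h
    simp only [mem_filter, mem_univ, true_and] at hw hw'
    have : w ∈ insert w' ({u, v} : Finset V) := by
      rw [← h]; exact mem_insert_self _ _
    simp only [mem_insert, mem_singleton] at this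
    rcases this with h1 | h1 | h1
    · exact h1
    · exact absurd h1 hw.1
    · exact absurd h1 hw.2.1
  · intro e he
    simp only [mem_filter, mem_powersetCard, subset_univ, true_and] at he
    obtain ⟨⟨h3, hQ⟩, hsub⟩ := he
    have hc : (e \ {u, v}).card = 1 := by
      rw [card_sdiff_of_subset hsub, h3, card_pair huv]
    obtain ⟨w, hw⟩ := Finset.card_eq_one.mp hc
    have hwe : w ∈ e \ {u, v} := by rw [hw]; exact mem_singleton_self _
    simp only [mem_sdiff, mem_insert, mem_singleton, not_or] at hwe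
    have he2 : insert w {u, v} = e := by
      have := Finset.sdiff_union_of_subset hsub
      rw [hw] at this
      rw [← this]
      rfl
    refine ⟨w, ?_, he2⟩
    simp only [mem_filter, mem_univ, true_and]
    exact ⟨hwe.2.1, hwe.2.2, by rw [he2]; exact hQ⟩

/-- handshake at a vertex -/
theorem hand_pair (H : Finset (Finset V)) (hH : ∀ e ∈ H, e.card = 3) (v : V) :
    ∑ u ∈ univ.erase v, (H.filter (fun e => ({u, v} : Finset V) ⊆ e)).card
      = 2 * (H.filter (fun e => v ∈ e)).card := by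
  classical
  have h1 : ∀ u, (H.filter (fun e => ({u, v} : Finset V) ⊆ e)).card
      = ∑ e ∈ H, if (u ∈ e ∧ v ∈ e) then 1 else 0 := by
    intro u
    rw [card_filter]
    refine sum_congr rfl fun e _ => ?_
    congr 1
    simp [insert_subset_iff]
  rw [sum_congr rfl (fun u _ => h1 u), sum_comm, card_filter, mul_sum]
  refine sum_congr rfl fun e he => ?_
  by_cases hv : v ∈ e
  · simp only [hv, and_true, if_true, mul_one]
    rw [← card_filter]
    have : (univ.erase v).filter (fun u => u ∈ e) = e.erase v := by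
      ext u; simp
    rw [this, card_erase_of_mem hv, hH e he]
  · simp [hv]

theorem hand_vertex (H : Finset (Finset V)) (hH : ∀ e ∈ H, e.card = 3) :
    ∑ v : V, (H.filter (fun e => v ∈ e)).card = 3 * H.card := by
  classical
  have h1 : ∀ v : V, (H.filter (fun e => v ∈ e)).card = ∑ e ∈ H, if v ∈ e then 1 else 0 := by
    intro v; rw [card_filter]
  rw [sum_congr rfl (fun u _ => h1 u), sum_comm, Finset.card_eq_sum_ones H, mul_sum]
  refine sum_congr rfl fun e he => ?_
  rw [← card_filter]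
  have : univ.filter (fun v => v ∈ e) = e := by ext; simp
  rw [this, hH e he, mul_one]

theorem sum3 (f : V → ℕ) (u v w : V) (huv : u ≠ v) (h1 : w ≠ u) (h2 : w ≠ v) :
    ∑ x ∈ insert w ({u, v} : Finset V), f x = f w + (f u + f v) := by
  rw [sum_insert (by simp [h1, h2]), Finset.sum_pair huv]

end general

/-- the third point -/
theorem exists_third : ∀ a b : Fin 9, ∃ c : Fin 9, (∀ d : Fin 9, badT a b d = true ↔ d = c) ∧
    (a = b → c = a) ∧ (a ≠ b → c ≠ a ∧ c ≠ b) := by
  decide +kernel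

/-- all data of the construction -/
structure Setup (V : Type*) [Fintype V] [DecidableEq V] (B : ℕ) where
  τ : V → Fin 9
  pc : V → ℕ
  σ : V → V
  hτ : ∀ c, (univ.filter (fun v => τ v = c)).card = B
  hpc : ∀ v, pc v = 0 ∨ pc v = 1 ∨ pc v = 4 ∨ pc v = 16
  h1 : (univ.filter (fun v => pc v = 1)).card = 6
  h4 : (univ.filter (fun v => pc v = 4)).card = 6
  h16 : (univ.filter (fun v => pc v = 16)).card = 6
  t1 : ∀ v, pc v = 1 → τ v = 0 ∨ τ v = 1
  t4 : ∀ v, pc v = 4 → τ v = 0 ∨ τ v = 2
  t16 : ∀ v, pc v = 16 → τ v = 3 ∨ τ v = 6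
  c1 : (univ.filter (fun v => pc v = 1 ∧ τ v = 1)).card = 3
  c4 : (univ.filter (fun v => pc v = 4 ∧ τ v = 2)).card = 3
  c16 : (univ.filter (fun v => pc v = 16 ∧ τ v = 3)).card = 3
  hσ : ∀ v, σ (σ v) = v
  hσne : ∀ v, σ v ≠ v
  hστ : ∀ v, τ (σ v) = τ v

namespace Setup

variable {V : Type*} [Fintype V] [DecidableEq V] {B : ℕ} (s : Setup V B)

def bad (e : Finset V) : Prop :=
  (∑ v ∈ e, (s.τ v).1 % 3) % 3 = 0 ∧ (∑ v ∈ e, (s.τ v).1 / 3) % 3 = 0

instance : DecidablePred s.bad := fun _ => inferInstanceAs (Decidable (_ ∧ _))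

def sp (e : Finset V) : ℕ := ∑ v ∈ e, s.pc v

def code (e : Finset V) : ℕ := ∑ v ∈ e, 4 ^ (s.τ v).1

/-- the hypergraph -/
def G : Finset (Finset V) :=
  ((univ : Finset V).powersetCard 3).filter (fun e => ¬ s.bad e ∧ s.sp e ≠ 21)

theorem bad_insert (u v w : V) (huv : u ≠ v) (h1 : w ≠ u) (h2 : w ≠ v) :
    s.bad (insert w {u, v}) ↔ badT (s.τ u) (s.τ v) (s.τ w) = true := by
  unfold bad badT
  rw [sum3 (fun x => (s.τ x).1 % 3) u v w huv h1 h2, sum3 (fun x => (s.τ x).1 / 3) u v w huv h1 h2]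
  simp only [Bool.and_eq_true, beq_iff_eq]
  constructor
  · rintro ⟨h, h'⟩; exact ⟨by omega, by omega⟩
  · rintro ⟨h, h'⟩; exact ⟨by omega, by omega⟩

theorem sp_insert (u v w : V) (huv : u ≠ v) (h1 : w ≠ u) (h2 : w ≠ v) :
    s.sp (insert w {u, v}) = s.pc w + (s.pc u + s.pc v) := by
  exact sum3 _ u v w huv h1 h2

include s in
theorem card_univ : (univ : Finset V).card = 9 * B := by
  rw [Finset.card_eq_sum_card_fiberwise (f := s.τ) (t := univ) (fun _ _ => mem_univ _)]
  rw [sum_congr rfl (fun c _ => s.hτ c)]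
  simp

/-- a triple with part codes summing to 21 is good -/
theorem badT_of_sp (u v w : V) (h : s.pc w + (s.pc u + s.pc v) = 21) :
    badT (s.τ u) (s.τ v) (s.τ w) = false := by
  have key : ∀ a b c : Fin 9, (a = 0 ∨ a = 1) → (b = 0 ∨ b = 2) → (c = 3 ∨ c = 6) →
      badT a b c = false ∧ badT a c b = false ∧ badT b a c = false ∧ badT b c a = false ∧
      badT c a b = false ∧ badT c b a = false := by decide +kernel
  rcases s.hpc u with hu | hu | hu | hu <;> rcases s.hpc v with hv | hv | hv | hv <;>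
    rcases s.hpc w with hw | hw | hw | hw <;> rw [hu, hv, hw] at h <;>
    first
      | (exfalso; omega)
      | exact (key _ _ _ (s.t1 u hu) (s.t4 v hv) (s.t16 w hw)).1
      | exact (key _ _ _ (s.t1 u hu) (s.t4 w hw) (s.t16 v hv)).2.1
      | exact (key _ _ _ (s.t1 v hv) (s.t4 u hu) (s.t16 w hw)).2.2.1
      | exact (key _ _ _ (s.t1 w hw) (s.t4 u hu) (s.t16 v hv)).2.2.2.1
      | exact (key _ _ _ (s.t1 v hv) (s.t4 w hw) (s.t16 u hu)).2.2.2.2.1
      | exact (key _ _ _ (s.t1 w hw) (s.t4 v hv) (s.t16 u hu)).2.2.2.2.2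

end Setup

end Pool.Agent.Dec45
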