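import Pool.Agent.Dec45.Count

namespace Pool.Agent.Dec45

open Finset

namespace Setup

variable {V : Type*} [Fintype V] [DecidableEq V] {B : ℕ} (s : Setup V B)

/-- number of removed octahedron edges at a pair -/
def z2 (u v : V) : ℕ := if s.pc u ≠ 0 ∧ s.pc v ≠ 0 ∧ s.pc u ≠ s.pc v then 6 else 0

theorem card_Z (u v : V) :
    (univ.filter (fun w => w ≠ u ∧ w ≠ v ∧ s.pc w + (s.pc u + s.pc v) = 21)).card = s.z2 u v := by
  have key : ∀ p : ℕ, (∀ w, (w ≠ u ∧ w ≠ v ∧ s.pc w + (s.pc u + s.pc v) = 21) ↔ s.pc w = p) →
      (univ.filter (fun w => s.pc w = p)).card = 6 →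
      (univ.filter (fun w => w ≠ u ∧ w ≠ v ∧ s.pc w + (s.pc u + s.pc v) = 21)).card = 6 := by
    intro p hp hc
    rw [← hc]
    congr 1
    ext w
    simp only [mem_filter, mem_univ, true_and]
    exact hp w
  have zero : (∀ w, s.pc w + (s.pc u + s.pc v) ≠ 21) →
      (univ.filter (fun w => w ≠ u ∧ w ≠ v ∧ s.pc w + (s.pc u + s.pc v) = 21)).card = 0 := by
    intro h
    rw [card_eq_zero, filter_eq_empty_iff]
    intro w _ hw
    exact h w hw.2.2
  unfold z2
  split_ifs with h
  · obtain ⟨ha, hb, hc⟩ := h
    rcases s.hpc u with hu | hu | hu | hu <;> rcases s.hpc v with hv | hv | hv | hv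
    all_goals first
      | (exfalso; omega)
      | (refine key 16 ?_ s.h16
         intro w
         constructor
         · intro h; omega
         · intro h
           refine ⟨?_, ?_, by omega⟩
           · rintro rfl; omega
           · rintro rfl; omega)
      | (refine key 4 ?_ s.h4
         intro w
         constructor
         · intro h; omega
         · intro h
           refine ⟨?_, ?_, by omega⟩
           · rintro rfl; omega
           · rintro rfl; omega)
      | (refine key 1 ?_ s.h1
         intro w
         constructor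
         · intro h; omega
         · intro h
           refine ⟨?_, ?_, by omega⟩
           · rintro rfl; omega
           · rintro rfl; omega)
  · refine zero ?_
    intro w
    rcases s.hpc u with hu | hu | hu | hu <;> rcases s.hpc v with hv | hv | hv | hv <;>
      rcases s.hpc w with hw | hw | hw | hw <;> omega

theorem card_ne (c : Fin 9) : (univ.filter (fun w => s.τ w ≠ c)).card = 8 * B := by
  have h := Finset.card_filter_add_card_filter_not (s := (univ : Finset V)) (fun w => s.τ w = c)
  rw [s.hτ c, s.card_univ] at h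
  have h2 : (univ.filter (fun w => s.τ w ≠ c)).card
      = (univ.filter (fun w => ¬ s.τ w = c)).card := rfl
  rw [h2]
  omega

theorem card_A (u v : V) (huv : u ≠ v) :
    (univ.filter (fun w => w ≠ u ∧ w ≠ v ∧ badT (s.τ u) (s.τ v) (s.τ w) = false)).card
      + (if s.τ u = s.τ v then 0 else 2) = 8 * B := by
  obtain ⟨c, hc, he, hne⟩ := exists_third (s.τ u) (s.τ v)
  have hb : ∀ w, badT (s.τ u) (s.τ v) (s.τ w) = false ↔ s.τ w ≠ c := by
    intro w
    rw [← Bool.not_eq_true, hc]
  by_cases h : s.τ u = s.τ v
  · rw [if_pos h, add_zero, ← s.card_ne c]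
    congr 1
    ext w
    simp only [mem_filter, mem_univ, true_and, hb]
    constructor
    · exact fun h => h.2.2
    · intro hw
      refine ⟨?_, ?_, hw⟩
      · rintro rfl; exact hw (he h).symm
      · rintro rfl; rw [← h] at hw; exact hw (he h).symm
  · rw [if_neg h]
    have h1 : (univ.filter (fun w => w ≠ u ∧ w ≠ v ∧ badT (s.τ u) (s.τ v) (s.τ w) = false))
        = ((univ.filter (fun w => s.τ w ≠ c)).erase u).erase v := by
      ext w
      simp only [mem_filter, mem_univ, true_and, hb, mem_erase]
      tauto
    rw [h1, card_erase_of_mem, card_erase_of_mem, s.card_ne c]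
    · have : 2 ≤ 8 * B := by
        rw [← s.card_ne c]
        have hsub : ({u, v} : Finset V) ⊆ univ.filter (fun w => s.τ w ≠ c) := by
          intro x hx
          simp only [mem_insert, mem_singleton] at hx
          simp only [mem_filter, mem_univ, true_and]
          rcases hx with rfl | rfl
          · exact fun h' => (hne h).1 h'.symm
          · exact fun h' => (hne h).2 h'.symm
        have := card_le_card hsub
        rwa [card_pair huv] at this
      omega
    · simp only [mem_filter, mem_univ, true_and]
      exact fun h' => (hne h).1 h'.symm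
    · simp only [mem_erase, mem_filter, mem_univ, true_and]
      exact ⟨huv.symm, fun h' => (hne h).2 h'.symm⟩

theorem deg_pair (u v : V) (huv : u ≠ v) :
    (s.G.filter (fun e => ({u, v} : Finset V) ⊆ e)).card + s.z2 u v
      + (if s.τ u = s.τ v then 0 else 2) = 8 * B := by
  rw [← s.card_A u v huv, add_left_inj]
  unfold G
  rw [card_pair_filter (fun e => ¬ s.bad e ∧ s.sp e ≠ 21) u v huv, ← s.card_Z u v,
    ← Finset.card_union_of_disjoint]
  · congr 1
    ext w
    simp only [mem_union, mem_filter, mem_univ, true_and]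
    constructor
    · rintro (⟨h1, h2, h3, h4⟩ | ⟨h1, h2, h3⟩)
      · rw [s.bad_insert u v w huv h1 h2, Bool.not_eq_true] at h3
        exact ⟨h1, h2, h3⟩
      · exact ⟨h1, h2, s.badT_of_sp u v w h3⟩
    · rintro ⟨h1, h2, h3⟩
      by_cases h : s.pc w + (s.pc u + s.pc v) = 21
      · exact Or.inr ⟨h1, h2, h⟩
      · refine Or.inl ⟨h1, h2, ?_, ?_⟩
        · rw [s.bad_insert u v w huv h1 h2, h3]; decide
        · rw [s.sp_insert u v w huv h1 h2]; exact h
  · rw [disjoint_filter]
    rintro w _ ⟨h1, h2, _, h4⟩ ⟨_, _, h5⟩
    rw [s.sp_insert u v w huv h1 h2] at h4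
    exact h4 h5

theorem G_card (e : Finset V) (he : e ∈ s.G) : e.card = 3 := by
  unfold G at he
  simp only [mem_filter, mem_powersetCard] at he
  exact he.1.2

end Setup

end Pool.Agent.Dec45
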