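import Pool.Agent.Dec45.Deg

namespace Pool.Agent.Dec45

open Finset

namespace Setup

variable {V : Type*} [Fintype V] [DecidableEq V] {B : ℕ} (s : Setup V B)

theorem sum_z2 (v : V) : ∑ u ∈ univ.erase v, s.z2 u v = if s.pc v ≠ 0 then 72 else 0 := by
  have h0 : ∑ u ∈ univ.erase v, s.z2 u v = ∑ u, s.z2 u v := by
    rw [← Finset.add_sum_erase univ (fun u => s.z2 u v) (mem_univ v)]
    have : s.z2 v v = 0 := by unfold z2; simp
    simp [this]
  rw [h0]
  have h2 : ∀ p q : ℕ, (∀ u, (s.pc u ≠ 0 ∧ s.pc v ≠ 0 ∧ s.pc u ≠ s.pc v) ↔ (s.pc u = p ∨ s.pc u = q)) →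
      p ≠ q → (univ.filter (fun w => s.pc w = p)).card = 6 →
      (univ.filter (fun w => s.pc w = q)).card = 6 → ∑ u, s.z2 u v = 72 := by
    intro p q h hpq hp hq
    have h3 : ∀ u, s.z2 u v = 6 * (if (s.pc u = p ∨ s.pc u = q) then 1 else 0) := by
      intro u
      unfold z2
      by_cases hh : s.pc u = p ∨ s.pc u = q
      · rw [if_pos ((h u).mpr hh), if_pos hh]
      · rw [if_neg (fun h' => hh ((h u).mp h')), if_neg hh]
    have hd : Disjoint (univ.filter (fun w => s.pc w = p)) (univ.filter (fun w => s.pc w = q)) := by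
      rw [disjoint_filter]
      intro w _ h4 h5
      exact hpq (h4.symm.trans h5)
    rw [sum_congr rfl (fun u _ => h3 u), ← mul_sum, ← card_filter, filter_or,
      card_union_of_disjoint hd, hp, hq]
    norm_num
  split_ifs with h
  · rcases s.hpc v with hv | hv | hv | hv
    · exact absurd hv h
    · refine h2 4 16 ?_ (by decide) s.h4 s.h16
      intro u
      rcases s.hpc u with hu | hu | hu | hu <;> rw [hu, hv] <;> simp
    · refine h2 1 16 ?_ (by decide) s.h1 s.h16
      intro u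
      rcases s.hpc u with hu | hu | hu | hu <;> rw [hu, hv] <;> simp
    · refine h2 1 4 ?_ (by decide) s.h1 s.h4
      intro u
      rcases s.hpc u with hu | hu | hu | hu <;> rw [hu, hv] <;> simp
  · refine sum_eq_zero fun u _ => ?_
    unfold z2
    rw [if_neg]
    tauto

theorem deg_vertex (v : V) :
    2 * (s.G.filter (fun e => v ∈ e)).card + (if s.pc v ≠ 0 then 72 else 0) + 16 * B
      = (9 * B - 1) * (8 * B) := by
  rw [← hand_pair s.G s.G_card v, ← s.sum_z2 v]
  have h1 : ∑ u ∈ univ.erase v, (if s.τ u = s.τ v then 0 else 2) = 16 * B := by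
    have h0 : ∑ u ∈ univ.erase v, (if s.τ u = s.τ v then 0 else 2)
        = ∑ u, (if s.τ u = s.τ v then 0 else 2) := by
      rw [← Finset.add_sum_erase univ (fun u => if s.τ u = s.τ v then 0 else 2) (mem_univ v)]
      simp
    rw [h0]
    have h3 : ∀ u, (if s.τ u = s.τ v then 0 else 2) = 2 * (if s.τ u ≠ s.τ v then 1 else 0) := by
      intro u
      by_cases h : s.τ u = s.τ v <;> simp [h]
    rw [sum_congr rfl (fun u _ => h3 u), ← mul_sum, ← card_filter, s.card_ne]
    ring
  rw [← h1, ← sum_add_distrib, ← sum_add_distrib]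
  rw [sum_congr rfl (fun u hu => s.deg_pair u v (ne_of_mem_erase hu)), sum_const, smul_eq_mul,
    card_erase_of_mem (mem_univ v), s.card_univ]

theorem card_P : (univ.filter (fun v => s.pc v ≠ 0)).card = 18 := by
  have : univ.filter (fun v => s.pc v ≠ 0) = (univ.filter (fun v => s.pc v = 1))
      ∪ ((univ.filter (fun v => s.pc v = 4)) ∪ (univ.filter (fun v => s.pc v = 16))) := by
    ext v
    simp only [mem_union, mem_filter, mem_univ, true_and]
    rcases s.hpc v with hv | hv | hv | hv <;> rw [hv] <;> simp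
  rw [this, card_union_of_disjoint, card_union_of_disjoint, s.h1, s.h4, s.h16]
  · rw [disjoint_filter]; intro w _ h4 h5; omega
  · rw [disjoint_union_right, disjoint_filter, disjoint_filter]
    exact ⟨fun w _ h4 h5 => by omega, fun w _ h4 h5 => by omega⟩

theorem card_G : 6 * s.G.card + 1296 + 144 * B ^ 2 = 9 * B * ((9 * B - 1) * (8 * B)) := by
  have h := hand_vertex s.G s.G_card
  have h1 : ∑ v : V, (2 * (s.G.filter (fun e => v ∈ e)).card + (if s.pc v ≠ 0 then 72 else 0) + 16 * B)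
      = ∑ v : V, ((9 * B - 1) * (8 * B)) := sum_congr rfl (fun v _ => s.deg_vertex v)
  rw [sum_add_distrib, sum_add_distrib, ← mul_sum, h, sum_const, sum_const, smul_eq_mul, smul_eq_mul,
    s.card_univ] at h1
  have h2 : ∑ v : V, (if s.pc v ≠ 0 then 72 else 0) = 1296 := by
    have : ∀ v, (if s.pc v ≠ 0 then 72 else 0) = 72 * (if s.pc v ≠ 0 then 1 else 0) := by
      intro v; by_cases h : s.pc v ≠ 0 <;> simp [h]
    rw [sum_congr rfl (fun v _ => this v), ← mul_sum, ← card_filter, s.card_P]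
    norm_num
  rw [h2] at h1
  nlinarith [h1]

/-- `G` is `K_4^3`-divisible. -/
theorem divisible (hB : 1 ≤ B) (S : Finset V) (hS : S.card < 3) :
    (4 - S.card).choose (3 - S.card) ∣ (s.G.filter (fun e => S ⊆ e)).card := by
  have hc : S.card = 0 ∨ S.card = 1 ∨ S.card = 2 := by omega
  rcases hc with h | h | h
  · rw [h]
    rw [card_eq_zero] at h
    subst h
    have h1 : s.G.filter (fun e => (∅ : Finset V) ⊆ e) = s.G := by simp
    rw [h1]
    have h2 := s.card_G
    show (4 : ℕ) ∣ s.G.card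
    obtain ⟨b, rfl⟩ : ∃ b, B = b + 1 := ⟨B - 1, by omega⟩
    have h3 : 9 * (b + 1) - 1 = 9 * b + 8 := by omega
    rw [h3] at h2
    have h4 : s.G.card + 216 = 36 * (b + 1) ^ 2 * (3 * b + 2) := by nlinarith [h2]
    have h5 : 4 ∣ s.G.card + 216 := by
      rw [h4]
      exact ⟨9 * (b + 1) ^ 2 * (3 * b + 2), by ring⟩
    omega
  · rw [h]
    obtain ⟨v, rfl⟩ := card_eq_one.mp h
    have h1 : s.G.filter (fun e => ({v} : Finset V) ⊆ e) = s.G.filter (fun e => v ∈ e) := by
      ext e; simp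
    rw [h1]
    show (3 : ℕ) ∣ _
    have h2 := s.deg_vertex v
    obtain ⟨b, rfl⟩ : ∃ b, B = b + 1 := ⟨B - 1, by omega⟩
    have h3 : 9 * (b + 1) - 1 = 9 * b + 8 := by omega
    rw [h3] at h2
    generalize (s.G.filter (fun e => v ∈ e)).card = d at *
    have h4 : 2 * d + (if s.pc v ≠ 0 then 72 else 0) = 3 * (8 * (b + 1) * (3 * b + 2)) := by
      nlinarith [h2]
    have h5 : 3 ∣ 2 * d + (if s.pc v ≠ 0 then 72 else 0) := ⟨_, h4⟩
    split_ifs at h5 <;> omega
  · rw [h]
    obtain ⟨u, v, huv, rfl⟩ := card_eq_two.mp h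
    show (2 : ℕ) ∣ _
    have h2 := s.deg_pair u v huv
    have h3 : s.z2 u v = 6 ∨ s.z2 u v = 0 := by
      unfold z2; split_ifs <;> simp
    generalize (s.G.filter (fun e => ({u, v} : Finset V) ⊆ e)).card = d at *
    rcases h3 with h3 | h3 <;> rw [h3] at h2 <;> split_ifs at h2 <;> omega

theorem codegree (u v : V) (huv : u ≠ v) :
    8 * B ≤ (s.G.filter (fun e => ({u, v} : Finset V) ⊆ e)).card + 8 := by
  have h2 := s.deg_pair u v huv
  have h3 : s.z2 u v = 6 ∨ s.z2 u v = 0 := by
    unfold z2; split_ifs <;> simp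
  generalize (s.G.filter (fun e => ({u, v} : Finset V) ⊆ e)).card = d at *
  rcases h3 with h3 | h3 <;> rw [h3] at h2 <;> split_ifs at h2 <;> omega

end Setup

end Pool.Agent.Dec45
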