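import Pool.Agent.Dec45.Parity

namespace Pool.Agent.Dec45

open Finset

theorem card_filter_equiv {α β : Type*} [Fintype α] [Fintype β] (e : α ≃ β) (P : β → Prop)
    [DecidablePred P] :
    (univ.filter (fun a => P (e a))).card = (univ.filter P).card := by
  refine Finset.card_bij (fun a _ => e a) ?_ ?_ ?_
  · intro a ha
    simpa using ha
  · intro a _ b _ h
    exact e.injective h
  · intro b hb
    refine ⟨e.symm b, ?_, e.apply_symm_apply b⟩
    simpa using hb

/-- model vertex set -/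
abbrev W (t : ℕ) : Type := Fin 9 × (Fin (t + 7) × Bool)

def pc0 (t : ℕ) (v : W t) : ℕ :=
  if v.2.2 = false ∧ (v.1 = 0 ∨ v.1 = 1) ∧ v.2.1.1 < 3 then 1
  else if v.2.2 = false ∧ (v.1 = 0 ∨ v.1 = 2) ∧ (3 ≤ v.2.1.1 ∧ v.2.1.1 < 6) then 4
  else if v.2.2 = false ∧ (v.1 = 3 ∨ v.1 = 6) ∧ v.2.1.1 < 3 then 16
  else 0

theorem card_lt3 (t : ℕ) : (univ.filter (fun i : Fin (t + 7) => i.1 < 3)).card = 3 := by
  have : univ.filter (fun i : Fin (t + 7) => i.1 < 3) = Finset.Iio (⟨3, by omega⟩ : Fin (t + 7)) := by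
    ext i; simp [Fin.lt_def]
  rw [this, Fin.card_Iio]

theorem card_36 (t : ℕ) : (univ.filter (fun i : Fin (t + 7) => 3 ≤ i.1 ∧ i.1 < 6)).card = 3 := by
  have : univ.filter (fun i : Fin (t + 7) => 3 ≤ i.1 ∧ i.1 < 6)
      = Finset.Ico (⟨3, by omega⟩ : Fin (t + 7)) ⟨6, by omega⟩ := by
    ext i; simp [Fin.lt_def, Fin.le_def]
  rw [this, Fin.card_Ico]
  rfl

theorem pc0_1 (t : ℕ) (v : W t) :
    pc0 t v = 1 ↔ v.1 ∈ ({0, 1} : Finset (Fin 9)) ∧ v.2.1.1 < 3 ∧ v.2.2 = false := by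
  unfold pc0
  simp only [mem_insert, mem_singleton]
  split_ifs with h1 h2 h3
  · simp [h1]
  · simp only [OfNat.ofNat_ne_one, false_iff]
    omega
  · simp only [OfNat.ofNat_ne_one, false_iff]
    rintro ⟨h, h', h''⟩
    exact h1 ⟨h'', h, h'⟩
  · simp only [false_iff]
    rintro ⟨h, h', h''⟩
    exact h1 ⟨h'', h, h'⟩

theorem pc0_4 (t : ℕ) (v : W t) :
    pc0 t v = 4 ↔ v.1 ∈ ({0, 2} : Finset (Fin 9)) ∧ (3 ≤ v.2.1.1 ∧ v.2.1.1 < 6) ∧ v.2.2 = false := by
  unfold pc0
  simp only [mem_insert, mem_singleton]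
  split_ifs with h1 h2 h3
  · simp only [OfNat.one_ne_ofNat, false_iff]
    omega
  · simp [h2]
  · simp only [Nat.reduceEqDiff, false_iff]
    rintro ⟨h, h', h''⟩
    exact h2 ⟨h'', h, h'⟩
  · simp only [false_iff]
    rintro ⟨h, h', h''⟩
    exact h2 ⟨h'', h, h'⟩

theorem pc0_16 (t : ℕ) (v : W t) :
    pc0 t v = 16 ↔ v.1 ∈ ({3, 6} : Finset (Fin 9)) ∧ v.2.1.1 < 3 ∧ v.2.2 = false := by
  unfold pc0
  simp only [mem_insert, mem_singleton]
  split_ifs with h1 h2 h3
  · simp only [OfNat.one_ne_ofNat, false_iff]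
    rintro ⟨h | h, _, _⟩ <;> rcases h1.2.1 with h' | h' <;> rw [h] at h' <;> revert h' <;> decide
  · simp only [Nat.reduceEqDiff, false_iff]
    omega
  · simp [h3]
  · simp only [false_iff]
    rintro ⟨h, h', h''⟩
    exact h3 ⟨h'', h, h'⟩

theorem card_prod (t : ℕ) (C : Finset (Fin 9)) (P : Fin (t + 7) → Prop) [DecidablePred P] (Q : W t → Prop)
    [DecidablePred Q] (h : ∀ v, Q v ↔ v.1 ∈ C ∧ P v.2.1 ∧ v.2.2 = false) :
    (univ.filter Q).card = C.card * (univ.filter P).card := by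
  have : univ.filter Q = C ×ˢ ((univ.filter P) ×ˢ ({false} : Finset Bool)) := by
    ext v
    simp only [mem_filter, mem_univ, true_and, mem_product, mem_singleton]
    exact h v
  rw [this, card_product, card_product, card_singleton, mul_one]

/-- the setup on `Fin (18 (t+7))` -/
theorem exists_setup (t : ℕ) : Nonempty (Setup (Fin (18 * (t + 7))) (2 * (t + 7))) := by
  have hcard : Fintype.card (W t) = 18 * (t + 7) := by
    simp only [Fintype.card_prod, Fintype.card_fin, Fintype.card_bool]; ring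
  let e : Fin (18 * (t + 7)) ≃ W t := (Fintype.equivFinOfCardEq hcard).symm
  refine ⟨{
    τ := fun v => (e v).1
    pc := fun v => pc0 t (e v)
    σ := fun v => e.symm ((e v).1, (e v).2.1, !(e v).2.2)
    hτ := ?_
    hpc := ?_
    h1 := ?_
    h4 := ?_
    h16 := ?_
    t1 := ?_
    t4 := ?_
    t16 := ?_
    c1 := ?_
    c4 := ?_
    c16 := ?_
    hσ := ?_
    hσne := ?_
    hστ := ?_ }⟩
  · intro c
    rw [card_filter_equiv e (fun x : W t => x.1 = c)]
    have : univ.filter (fun x : W t => x.1 = c) = ({c} : Finset (Fin 9)) ×ˢ univ := by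
      ext x
      simp only [mem_filter, mem_univ, true_and, mem_product, mem_singleton, and_true]
    rw [this, card_product, card_singleton, card_univ, Fintype.card_prod, Fintype.card_fin,
      Fintype.card_bool]
    ring
  · intro v
    unfold pc0
    split_ifs <;> simp
  · rw [card_filter_equiv e (fun x : W t => pc0 t x = 1),
      card_prod t {0, 1} (fun i => i.1 < 3) _ (pc0_1 t), card_lt3]
    decide
  · rw [card_filter_equiv e (fun x : W t => pc0 t x = 4),
      card_prod t {0, 2} (fun i => 3 ≤ i.1 ∧ i.1 < 6) _ (pc0_4 t), card_36]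
    decide
  · rw [card_filter_equiv e (fun x : W t => pc0 t x = 16),
      card_prod t {3, 6} (fun i => i.1 < 3) _ (pc0_16 t), card_lt3]
    decide
  · intro v hv
    have := ((pc0_1 t (e v)).mp hv).1
    simpa using this
  · intro v hv
    have := ((pc0_4 t (e v)).mp hv).1
    simpa using this
  · intro v hv
    have := ((pc0_16 t (e v)).mp hv).1
    simpa using this
  · rw [card_filter_equiv e (fun x : W t => pc0 t x = 1 ∧ x.1 = 1),
      card_prod t {1} (fun i => i.1 < 3) _ ?_, card_lt3]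
    · decide
    · intro v
      rw [pc0_1]
      simp only [mem_insert, mem_singleton]
      constructor
      · rintro ⟨⟨_, h2, h3⟩, h4⟩; exact ⟨h4, h2, h3⟩
      · rintro ⟨h4, h2, h3⟩; exact ⟨⟨Or.inr h4, h2, h3⟩, h4⟩
  · rw [card_filter_equiv e (fun x : W t => pc0 t x = 4 ∧ x.1 = 2),
      card_prod t {2} (fun i => 3 ≤ i.1 ∧ i.1 < 6) _ ?_, card_36]
    · decide
    · intro v
      rw [pc0_4]
      simp only [mem_insert, mem_singleton]
      constructor
      · rintro ⟨⟨_, h2, h3⟩, h4⟩; exact ⟨h4, h2, h3⟩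
      · rintro ⟨h4, h2, h3⟩; exact ⟨⟨Or.inr h4, h2, h3⟩, h4⟩
  · rw [card_filter_equiv e (fun x : W t => pc0 t x = 16 ∧ x.1 = 3),
      card_prod t {3} (fun i => i.1 < 3) _ ?_, card_lt3]
    · decide
    · intro v
      rw [pc0_16]
      simp only [mem_insert, mem_singleton]
      constructor
      · rintro ⟨⟨_, h2, h3⟩, h4⟩; exact ⟨h4, h2, h3⟩
      · rintro ⟨h4, h2, h3⟩; exact ⟨⟨Or.inl h4, h2, h3⟩, h4⟩
  · intro v
    simp
  · intro v h
    have h2 : e (e.symm ((e v).1, (e v).2.1, !(e v).2.2)) = e v := by rw [h]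
    rw [Equiv.apply_symm_apply] at h2
    have h3 : (!(e v).2.2) = (e v).2.2 := congrArg (fun x => x.2.2) h2
    revert h3
    cases (e v).2.2 <;> simp
  · intro v
    simp

end Pool.Agent.Dec45
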