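import Pool.Agent.Dec45.Div

namespace Pool.Agent.Dec45

open Finset

section general

variable {V : Type*} [DecidableEq V]

theorem sum_powersetCard_erase {M : Type*} [AddCommMonoid M] (A : Finset V) (k : ℕ)
    (hA : A.card = k + 1) (g : Finset V → M) :
    ∑ e ∈ A.powersetCard k, g e = ∑ x ∈ A, g (A.erase x) := by
  symm
  refine Finset.sum_bij (fun x _ => A.erase x) ?_ ?_ ?_ ?_
  · intro x hx
    rw [mem_powersetCard]
    exact ⟨erase_subset _ _, by rw [card_erase_of_mem hx, hA]; rfl⟩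
  · intro x hx y hy h
    by_contra hne
    have : x ∈ A.erase y := mem_erase.mpr ⟨hne, hx⟩
    rw [← h] at this
    exact notMem_erase _ _ this
  · intro e he
    rw [mem_powersetCard] at he
    have hc : (A \ e).card = 1 := by
      rw [card_sdiff_of_subset he.1, hA, he.2]; omega
    obtain ⟨x, hx⟩ := card_eq_one.mp hc
    have hxm : x ∈ A \ e := by rw [hx]; exact mem_singleton_self _
    rw [mem_sdiff] at hxm
    refine ⟨x, hxm.1, ?_⟩
    refine (Finset.eq_of_subset_of_card_le ?_ ?_).symm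
    · intro y hy
      rw [mem_erase]
      exact ⟨fun h => hxm.2 (h ▸ hy), he.1 hy⟩
    · rw [card_erase_of_mem hxm.1, hA, he.2]; rfl
  · intro x hx; rfl

theorem exists_four (A : Finset V) (hA : A.card = 4) :
    ∃ a b c d, a ≠ b ∧ a ≠ c ∧ a ≠ d ∧ b ≠ c ∧ b ≠ d ∧ c ≠ d ∧ A = {a, b, c, d} := by
  obtain ⟨a, A', ha, rfl, hA'⟩ := Finset.card_eq_succ.mp hA
  obtain ⟨b, c, d, hbc, hbd, hcd, rfl⟩ := Finset.card_eq_three.mp hA'
  simp only [mem_insert, mem_singleton, not_or] at ha
  exact ⟨a, b, c, d, ha.1, ha.2.1, ha.2.2, hbc, hbd, hcd, rfl⟩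

end general

namespace Setup

variable {V : Type*} [Fintype V] [DecidableEq V] {B : ℕ} (s : Setup V B)

/-- the cocycle on triples of vertices -/
def f (e : Finset V) : ZMod 2 := chi (s.code e)

theorem badT_rot (a b c : Fin 9) : badT b c a = badT a b c := by
  unfold badT
  congr 2 <;> omega

theorem good_of_mem (x y z : V) (h1 : x ≠ y) (h2 : x ≠ z) (h3 : y ≠ z)
    (h : ({x, y, z} : Finset V) ∈ s.G) : badT (s.τ x) (s.τ y) (s.τ z) = false := by
  unfold G at h
  rw [mem_filter] at h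
  have h4 := h.2.1
  rw [s.bad_insert y z x h3 h1 h2, Bool.not_eq_true, badT_rot] at h4
  exact h4

theorem f_triple (x y z : V) (h1 : x ≠ y) (h2 : x ≠ z) (h3 : y ≠ z) :
    s.f {x, y, z} = chi (4 ^ (s.τ x).1 + 4 ^ (s.τ y).1 + 4 ^ (s.τ z).1) := by
  unfold f code
  rw [sum3 _ y z x h3 h1 h2, add_assoc]

/-- the cocycle has even weight on every complete 4-set -/
theorem even_K (A : Finset V) (hA : A.card = 4)
    (hsub : ∀ e : Finset V, e ⊆ A → e.card = 3 → e ∈ s.G) :
    ∑ e ∈ A.powersetCard 3, s.f e = 0 := by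
  rw [sum_powersetCard_erase A 3 hA]
  obtain ⟨a, b, c, d, hab, hac, had, hbc, hbd, hcd, rfl⟩ := exists_four A hA
  have e1 : ({a, b, c, d} : Finset V).erase a = {b, c, d} := by
    ext x; simp only [mem_erase, mem_insert, mem_singleton]
    constructor
    · rintro ⟨h, h'⟩; tauto
    · rintro (rfl | rfl | rfl)
      · exact ⟨hab.symm, by tauto⟩
      · exact ⟨hac.symm, by tauto⟩
      · exact ⟨had.symm, by tauto⟩
  have e2 : ({a, b, c, d} : Finset V).erase b = {a, c, d} := by
    ext x; simp only [mem_erase, mem_insert, mem_singleton]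
    constructor
    · rintro ⟨h, h'⟩; tauto
    · rintro (rfl | rfl | rfl)
      · exact ⟨hab, by tauto⟩
      · exact ⟨hbc.symm, by tauto⟩
      · exact ⟨hbd.symm, by tauto⟩
  have e3 : ({a, b, c, d} : Finset V).erase c = {a, b, d} := by
    ext x; simp only [mem_erase, mem_insert, mem_singleton]
    constructor
    · rintro ⟨h, h'⟩; tauto
    · rintro (rfl | rfl | rfl)
      · exact ⟨hac, by tauto⟩
      · exact ⟨hbc, by tauto⟩
      · exact ⟨hcd.symm, by tauto⟩
  have e4 : ({a, b, c, d} : Finset V).erase d = {a, b, c} := by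
    ext x; simp only [mem_erase, mem_insert, mem_singleton]
    constructor
    · rintro ⟨h, h'⟩; tauto
    · rintro (rfl | rfl | rfl)
      · exact ⟨had, by tauto⟩
      · exact ⟨hbd, by tauto⟩
      · exact ⟨hcd, by tauto⟩
  have m1 : ({b, c, d} : Finset V) ∈ s.G := hsub {b, c, d} (by intro x hx; simp only [mem_insert, mem_singleton] at hx ⊢; tauto)
    (card_eq_three.mpr ⟨b, c, d, hbc, hbd, hcd, rfl⟩)
  have m2 : ({a, c, d} : Finset V) ∈ s.G := hsub {a, c, d} (by intro x hx; simp only [mem_insert, mem_singleton] at hx ⊢; tauto)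
    (card_eq_three.mpr ⟨a, c, d, hac, had, hcd, rfl⟩)
  have m3 : ({a, b, d} : Finset V) ∈ s.G := hsub {a, b, d} (by intro x hx; simp only [mem_insert, mem_singleton] at hx ⊢; tauto)
    (card_eq_three.mpr ⟨a, b, d, hab, had, hbd, rfl⟩)
  have m4 : ({a, b, c} : Finset V) ∈ s.G := hsub {a, b, c} (by intro x hx; simp only [mem_insert, mem_singleton] at hx ⊢; tauto)
    (card_eq_three.mpr ⟨a, b, c, hab, hac, hbc, rfl⟩)
  rw [sum_insert (by simp [hab, hac, had]), sum_insert (by simp [hbc, hbd]),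
    Finset.sum_pair hcd, e1, e2, e3, e4, s.f_triple b c d hbc hbd hcd, s.f_triple a c d hac had hcd,
    s.f_triple a b d hab had hbd, s.f_triple a b c hab hac hbc]
  have h := cocycle (s.τ a) (s.τ b) (s.τ c) (s.τ d) (s.good_of_mem a b c hab hac hbc m4)
    (s.good_of_mem a b d hab had hbd m3) (s.good_of_mem a c d hac had hcd m2)
    (s.good_of_mem b c d hbc hbd hcd m1)
  rw [← h]; ring

theorem σ_inj : Function.Injective s.σ := by
  intro x y h
  rw [← s.hσ x, h, s.hσ]

theorem image_ne (e : Finset V) (he : e.card = 3) : e.image s.σ ≠ e := by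
  intro h
  have h1 : ∑ v ∈ e, (1 : ZMod 2) = 0 := by
    refine Finset.sum_involution (fun v _ => s.σ v) ?_ ?_ ?_ ?_
    · intro a _; decide
    · intro a _ _; exact s.hσne a
    · intro a ha
      show s.σ a ∈ e
      rw [← h]; exact mem_image_of_mem _ ha
    · intro a _; exact s.hσ a
  rw [sum_const, he] at h1
  exact absurd h1 (by decide)

theorem sum_image_σ (e : Finset V) (g : V → ℕ) (hg : ∀ v, g (s.σ v) = g v) :
    ∑ v ∈ e.image s.σ, g v = ∑ v ∈ e, g v := by
  rw [sum_image (fun x _ y _ h => s.σ_inj h)]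
  exact sum_congr rfl fun v _ => hg v

/-- all label-good triples -/
def G0 : Finset (Finset V) := ((univ : Finset V).powersetCard 3).filter (fun e => ¬ s.bad e)

/-- the removed octahedron -/
def Z : Finset (Finset V) := ((univ : Finset V).powersetCard 3).filter (fun e => s.sp e = 21)

theorem sum_G0 : ∑ e ∈ s.G0, s.f e = 0 := by
  refine Finset.sum_involution (fun e _ => e.image s.σ) ?_ ?_ ?_ ?_
  · intro e he
    have : s.f (e.image s.σ) = s.f e := by
      unfold f code
      rw [s.sum_image_σ e (fun v => 4 ^ (s.τ v).1) (fun v => by simp only [s.hστ])]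
    rw [this]
    exact CharTwo.add_self_eq_zero _
  · intro e he _
    unfold G0 at he
    rw [mem_filter, mem_powersetCard] at he
    exact s.image_ne e he.1.2
  · intro e he
    unfold G0 at he ⊢
    rw [mem_filter, mem_powersetCard] at he ⊢
    refine ⟨⟨subset_univ _, ?_⟩, ?_⟩
    · rw [card_image_of_injective _ s.σ_inj]; exact he.1.2
    · unfold bad at he ⊢
      rw [s.sum_image_σ e (fun v => (s.τ v).1 % 3) (fun v => by simp only [s.hστ]),
        s.sum_image_σ e (fun v => (s.τ v).1 / 3) (fun v => by simp only [s.hστ])]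
      exact he.2
  · intro e he
    show (e.image s.σ).image s.σ = e
    rw [image_image]
    have : s.σ ∘ s.σ = id := by funext v; exact s.hσ v
    rw [this, image_id]

theorem Z_sub (e : Finset V) (he : e ∈ s.Z) : ¬ s.bad e := by
  unfold Z at he
  rw [mem_filter, mem_powersetCard] at he
  obtain ⟨x, y, z, h1, h2, h3, rfl⟩ := card_eq_three.mp he.1.2
  have h4 := he.2
  rw [s.sp_insert y z x h3 h1 h2] at h4
  rw [s.bad_insert y z x h3 h1 h2, s.badT_of_sp y z x h4]
  decide

theorem sum_split : ∑ e ∈ s.G, s.f e + ∑ e ∈ s.Z, s.f e = ∑ e ∈ s.G0, s.f e := by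
  have hd : Disjoint s.G s.Z := by
    rw [Finset.disjoint_left]
    intro e h1 h2
    unfold G at h1; unfold Z at h2
    rw [mem_filter] at h1 h2
    exact h1.2.2 h2.2
  rw [← sum_union hd]
  refine sum_congr ?_ fun _ _ => rfl
  ext e
  rw [mem_union]
  constructor
  · rintro (h | h)
    · unfold G at h; unfold G0
      rw [mem_filter] at h ⊢
      exact ⟨h.1, h.2.1⟩
    · have hb := s.Z_sub e h
      unfold Z at h; unfold G0
      rw [mem_filter] at h ⊢
      exact ⟨h.1, hb⟩
  · intro h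
    unfold G0 at h
    rw [mem_filter] at h
    by_cases h21 : s.sp e = 21
    · right; unfold Z; rw [mem_filter]; exact ⟨h.1, h21⟩
    · left; unfold G; rw [mem_filter]; exact ⟨h.1, h.2, h21⟩

def P1 : Finset V := univ.filter (fun v => s.pc v = 1)
def P4 : Finset V := univ.filter (fun v => s.pc v = 4)
def P16 : Finset V := univ.filter (fun v => s.pc v = 16)

theorem sum_Z_prod : ∑ e ∈ s.Z, s.f e = ∑ x ∈ s.P1, ∑ y ∈ s.P4, ∑ z ∈ s.P16, s.f {x, y, z} := by
  have h : ∑ x ∈ s.P1, ∑ y ∈ s.P4, ∑ z ∈ s.P16, s.f {x, y, z}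
      = ∑ p ∈ s.P1 ×ˢ (s.P4 ×ˢ s.P16), s.f {p.1, p.2.1, p.2.2} := by
    rw [sum_product]
    refine sum_congr rfl fun x _ => ?_
    rw [sum_product]
  rw [h]
  symm
  refine Finset.sum_bij (fun p _ => ({p.1, p.2.1, p.2.2} : Finset V)) ?_ ?_ ?_ ?_
  · rintro ⟨x, y, z⟩ hp
    simp only [mem_product, P1, P4, P16, mem_filter, mem_univ, true_and] at hp
    obtain ⟨hx, hy, hz⟩ := hp
    have hxy : x ≠ y := by rintro rfl; omega
    have hxz : x ≠ z := by rintro rfl; omega
    have hyz : y ≠ z := by rintro rfl; omega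
    show ({x, y, z} : Finset V) ∈ s.Z
    unfold Z
    rw [mem_filter, mem_powersetCard]
    refine ⟨⟨subset_univ _, card_eq_three.mpr ⟨x, y, z, hxy, hxz, hyz, rfl⟩⟩, ?_⟩
    rw [s.sp_insert y z x hyz hxy hxz]; omega
  · rintro ⟨x, y, z⟩ hp ⟨x', y', z'⟩ hp' h
    simp only [mem_product, P1, P4, P16, mem_filter, mem_univ, true_and] at hp hp'
    obtain ⟨hx, hy, hz⟩ := hp
    obtain ⟨hx', hy', hz'⟩ := hp'
    have h' : ({x, y, z} : Finset V) = {x', y', z'} := h
    have a1 : x ∈ ({x', y', z'} : Finset V) := by rw [← h']; simp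
    have a2 : y ∈ ({x', y', z'} : Finset V) := by rw [← h']; simp
    have a3 : z ∈ ({x', y', z'} : Finset V) := by rw [← h']; simp
    simp only [mem_insert, mem_singleton] at a1 a2 a3
    have b1 : x = x' := by
      rcases a1 with rfl | rfl | rfl
      · rfl
      · omega
      · omega
    have b2 : y = y' := by
      rcases a2 with rfl | rfl | rfl
      · omega
      · rfl
      · omega
    have b3 : z = z' := by
      rcases a3 with rfl | rfl | rfl
      · omega
      · omega
      · rfl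
    rw [b1, b2, b3]
  · intro e he
    unfold Z at he
    rw [mem_filter, mem_powersetCard] at he
    obtain ⟨x, y, z, hxy, hxz, hyz, rfl⟩ := card_eq_three.mp he.1.2
    have h4 := he.2
    rw [s.sp_insert y z x hyz hxy hxz] at h4
    have key : ∃ a b c : V, s.pc a = 1 ∧ s.pc b = 4 ∧ s.pc c = 16 ∧
        ({x, y, z} : Finset V) = {a, b, c} := by
      rcases s.hpc x with hx | hx | hx | hx <;> rcases s.hpc y with hy | hy | hy | hy <;>
        rcases s.hpc z with hz | hz | hz | hz <;> rw [hx, hy, hz] at h4 <;>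
        first
          | (exfalso; omega)
          | exact ⟨x, y, z, hx, hy, hz, rfl⟩
          | exact ⟨x, z, y, hx, hz, hy, by ext w; simp only [mem_insert, mem_singleton]; tauto⟩
          | exact ⟨y, x, z, hy, hx, hz, by ext w; simp only [mem_insert, mem_singleton]; tauto⟩
          | exact ⟨z, x, y, hz, hx, hy, by ext w; simp only [mem_insert, mem_singleton]; tauto⟩
          | exact ⟨y, z, x, hy, hz, hx, by ext w; simp only [mem_insert, mem_singleton]; tauto⟩
          | exact ⟨z, y, x, hz, hy, hx, by ext w; simp only [mem_insert, mem_singleton]; tauto⟩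
    obtain ⟨a, b, c, ha, hb, hc, he'⟩ := key
    refine ⟨(a, b, c), ?_, he'.symm⟩
    simp only [mem_product, P1, P4, P16, mem_filter, mem_univ, true_and]
    exact ⟨ha, hb, hc⟩
  · intro p _; rfl

theorem chi_Z : ∀ a b c : Fin 9, (a = 0 ∨ a = 1) → (b = 0 ∨ b = 2) → (c = 3 ∨ c = 6) →
    chiB (4 ^ a.1 + 4 ^ b.1 + 4 ^ c.1) = decide (a = 1 ∧ b = 2 ∧ c = 3) := by
  decide +kernel

theorem sum_Z : ∑ e ∈ s.Z, s.f e = 1 := by
  rw [s.sum_Z_prod]
  have h1 : ∀ x ∈ s.P1, ∀ y ∈ s.P4, ∀ z ∈ s.P16, s.f {x, y, z} =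
      (if s.τ x = 1 then 1 else 0) * ((if s.τ y = 2 then 1 else 0) * (if s.τ z = 3 then 1 else 0)) := by
    intro x hx y hy z hz
    simp only [P1, P4, P16, mem_filter, mem_univ, true_and] at hx hy hz
    have hxy : x ≠ y := by rintro rfl; omega
    have hxz : x ≠ z := by rintro rfl; omega
    have hyz : y ≠ z := by rintro rfl; omega
    rw [s.f_triple x y z hxy hxz hyz]
    unfold chi
    rw [chi_Z _ _ _ (s.t1 x hx) (s.t4 y hy) (s.t16 z hz)]
    by_cases a1 : s.τ x = 1 <;> by_cases a2 : s.τ y = 2 <;> by_cases a3 : s.τ z = 3 <;>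
      simp [a1, a2, a3]
  have h2 : ∑ x ∈ s.P1, ∑ y ∈ s.P4, ∑ z ∈ s.P16, s.f {x, y, z} =
      (∑ x ∈ s.P1, (if s.τ x = 1 then 1 else 0)) * ((∑ y ∈ s.P4, (if s.τ y = 2 then 1 else 0)) *
        (∑ z ∈ s.P16, (if s.τ z = 3 then (1 : ZMod 2) else 0))) := by
    rw [sum_mul]
    refine sum_congr rfl fun x hx => ?_
    rw [sum_mul, mul_sum]
    refine sum_congr rfl fun y hy => ?_
    rw [mul_sum, mul_sum]
    exact sum_congr rfl fun z hz => h1 x hx y hy z hz
  rw [h2, ← sum_filter, ← sum_filter, ← sum_filter]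
  simp only [P1, P4, P16, filter_filter, sum_const, s.c1, s.c4, s.c16]
  decide

theorem sum_G : ∑ e ∈ s.G, s.f e = 1 := by
  have h := s.sum_split
  rw [s.sum_Z, s.sum_G0] at h
  have h2 : ∑ e ∈ s.G, s.f e = -1 := eq_neg_of_add_eq_zero_left h
  rw [h2]; decide

/-- `G` has no `K_4^3`-decomposition -/
theorem no_decomposition (D : Finset (Finset V))
    (h1 : ∀ A ∈ D, A.card = 4 ∧ ∀ e : Finset V, e ⊆ A → e.card = 3 → e ∈ s.G)
    (h2 : ∀ e ∈ s.G, (D.filter (fun A => e ⊆ A)).card = 1) : False := by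
  have h3 : ∑ e ∈ s.G, s.f e = ∑ e ∈ s.G, ∑ A ∈ D, (if e ⊆ A then s.f e else 0) := by
    refine sum_congr rfl fun e he => ?_
    rw [← sum_filter, sum_const, h2 e he, one_smul]
  rw [sum_comm] at h3
  have h4 : ∀ A ∈ D, ∑ e ∈ s.G, (if e ⊆ A then s.f e else 0) = 0 := by
    intro A hA
    rw [← sum_filter]
    have : s.G.filter (fun e => e ⊆ A) = A.powersetCard 3 := by
      ext e
      rw [mem_filter, mem_powersetCard]
      constructor
      · rintro ⟨ha, hb⟩; exact ⟨hb, s.G_card e ha⟩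
      · rintro ⟨ha, hb⟩; exact ⟨(h1 A hA).2 e ha hb, ha⟩
    rw [this]
    exact s.even_K A (h1 A hA).1 (h1 A hA).2
  rw [sum_eq_zero h4, s.sum_G] at h3
  exact absurd h3 (by decide)

end Setup

end Pool.Agent.Dec45
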